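import Pool.Agent.Helper414.CuspFinal

open MeasureTheory Set Pool.Agent.Helper414.CuspStmt
open Pool.Agent.Helper414.Cusp (SimpleClosedCurve ZeroInnerAngle RationalSymbol interiorDomain
  HasWinding ConformalOnto)

namespace Pool.Agent.Results.MP_bb1e6f_an.CuspEveryWinding

/-- The similarity statement fails, for every winding number, for one and the same curve with a
point of inner angle zero. -/
theorem result : ∃ (Γ : Set ℂ) (w₀ : ℂ), SimpleClosedCurve Γ ∧ ZeroInnerAngle Γ w₀ ∧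
    (∃ G : C(UnitAddCircle, ℂ), RationalSymbol G ∧ Function.Injective G ∧ range G = Γ) ∧
    ∀ ν : ℕ, ∃ φ : C(UnitAddCircle, ℂ), RationalSymbol φ ∧ (∀ t, φ t ∈ Γ) ∧ (∃ t, φ t = w₀) ∧
      (∀ w ∈ interiorDomain Γ, HasWinding φ w ν) ∧
      ∀ (n : ℕ) (γ : Fin n → Set UnitAddCircle), (∀ k, MeasurableSet (γ k)) →
        (ν = 0 → ¬ Similar (toeplitz φ) (sumMul φ γ)) ∧
        (0 < ν → ∀ (τ : ℂ → ℂ) (g : C(UnitAddCircle, ℂ)), ConformalOnto τ Γ →
          (∀ t, g t = τ (fourier 1 t ^ ν)) → ¬ Similar (toeplitz φ) (modelOp g φ γ)) :=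
  main_all

end Pool.Agent.Results.MP_bb1e6f_an.CuspEveryWinding
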